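import Pool.Agent.SplitInt.Red

/-!
# Gruenhage's question: the dichotomy for images of products of compact linearly ordered spaces

A separable Hausdorff space with `G_δ` points (for example a separable perfectly normal space) which
is a continuous image of a product of arbitrarily many compact linearly ordered spaces (or of
compact spaces in which the closures of countable sets are metrizable or images of compact linearly
ordered spaces) is metrizable or contains a copy of `(A × {0, 1}, lex)` for some uncountable
`A ⊆ [0, 1]`.
-/

set_option autoImplicit false

namespace Pool.Agent.Results.MP_ac0fc8_lc.OrderedProducts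

universe u v w

open Pool.Agent.SplitInt TopologicalSpace

theorem result {ι : Type v} {L : ι → Type u} [∀ i, TopologicalSpace (L i)]
    [∀ i, CompactSpace (L i)] (hL : ∀ i, Factor (L i))
    {X : Type w} [TopologicalSpace X] [T2Space X] [SeparableSpace X] (hX : ∀ x : X, IsGδ {x})
    (f : (∀ i, L i) → X) (hf : Continuous f) (hs : Function.Surjective f) :
    MetrizableSpace X ∨ HasSplit X := by
  by_cases hm : MetrizableSpace X
  · exact Or.inl hm
  · exact Or.inr (main_factor hL hX hf hs hm)

end Pool.Agent.Results.MP_ac0fc8_lc.OrderedProducts
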